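import Pool.Agent.helper41.HFE.Spec

/-!
# MP_3221a1_ag, project HFE, row IMX: a curve of bidegree `(1, 1)` with the largest number of points exists
-/

set_option autoImplicit false

open Polynomial Module Pool.Agent.HFN

namespace Pool.Agent.HFE

noncomputable section

theorem IMX : IMX_stmt := by
  classical
  intro hF Z
  obtain ⟨f0, hf0, -⟩ := hF.2.1
  have hb : ∀ f : AA, nn Z f ≤ Z.card := fun f => Finset.card_filter_le _ _
  let P : ℕ → Prop := fun v => ∃ f : AA, I11 f ∧ nn Z f = v
  have hP : P (nn Z f0) := ⟨f0, hf0, rfl⟩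
  have h1 : P (Nat.findGreatest P Z.card) := Nat.findGreatest_spec (hb f0) hP
  exact ⟨Nat.findGreatest P Z.card, fun f hf => Nat.le_findGreatest (hb f) ⟨f, hf, rfl⟩, h1⟩

end

end Pool.Agent.HFE
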